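import Pool.Agent.helper42.NS.Spec2

set_option autoImplicit false

namespace Pool.Agent.helper42.NS

open Polynomial Matrix

theorem CNQ (h : FIN_stmt) : CNQ_stmt := by
  intro q s hq hs
  have _ := h
  classical
  by_cases hne : s.Nonempty
  swap
  · rw [Finset.not_nonempty_iff_eq_empty.mp hne]
    exact Nat.zero_le _
  obtain ⟨P0, hP0⟩ := hne
  have hmax : ∀ P : Pt, P.asIdeal.IsMaximal := fun P => P.isMaximal
  let fld : ∀ P : Pt, Field (KP P) := fun P => Ideal.Quotient.field P.asIdeal
  have hfin : ∀ P ∈ s, Finite (KP P) := by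
    intro P hP
    apply Nat.finite_of_card_ne_zero
    have := hs P hP
    unfold qP at this
    omega
  have := hfin P0 hP0
  have hiso : ∀ P : s, ∃ f : ℤ[X] →+* KP P0, RingHom.ker f = P.1.asIdeal := by
    intro P
    have := hfin P.1 P.2
    have := Fintype.ofFinite (KP P.1)
    have := Fintype.ofFinite (KP P0)
    have hc : Fintype.card (KP P.1) = Fintype.card (KP P0) := by
      have h1 := hs P.1 P.2
      have h2 := hs P0 hP0
      unfold qP at h1 h2
      rw [Nat.card_eq_fintype_card] at h1 h2
      rw [h1, h2]
    let e := FiniteField.ringEquivOfCardEq hc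
    refine ⟨(e : KP P.1 →+* KP P0).comp (Ideal.Quotient.mk P.1.asIdeal), ?_⟩
    ext x
    rw [RingHom.mem_ker, RingHom.comp_apply]
    constructor
    · intro hx
      rw [← Ideal.Quotient.eq_zero_iff_mem]
      have h1 : e (Ideal.Quotient.mk P.1.asIdeal x) = 0 := hx
      exact (map_eq_zero_iff e e.injective).mp h1
    · intro hx
      rw [Ideal.Quotient.eq_zero_iff_mem.mpr hx, map_zero]
  choose f hf using hiso
  have hinj : Function.Injective fun P : s => f P X := by
    intro P Q hPQ
    have h1 : f P = f Q := by
      apply Polynomial.ringHom_ext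
      · intro z
        simp
      · exact hPQ
    apply Subtype.ext
    apply MaximalSpectrum.ext
    rw [← hf P, ← hf Q, h1]
  have h1 := Nat.card_le_card_of_injective _ hinj
  have h2 := hs P0 hP0
  unfold qP at h2
  rw [h2, Nat.card_eq_fintype_card, Fintype.card_coe] at h1
  exact h1

end Pool.Agent.helper42.NS
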