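import Pool.Agent.helper42.NS.Spec2

set_option autoImplicit false

namespace Pool.Agent.helper42.NS

open Polynomial Matrix

theorem LOA_half (p : ℕ) [Fact p.Prime] (V : Type*) [AddCommGroup V] [Module (ZMod p) V]
    [Finite V] (t : ℕ) (u : Fin t → V) :
    ∃ φ : V →ₗ[ZMod p] ZMod p,
      Set.ncard {j | u j ≠ 0} ≤ 2 * Set.ncard {j | φ (u j) ≠ 0} := by
  classical
  by_contra hcon
  push Not at hcon
  have : Finite (V →ₗ[ZMod p] ZMod p) := Finite.of_injective
    (fun φ : V →ₗ[ZMod p] ZMod p => (φ : V → ZMod p)) DFunLike.coe_injective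
  have := Fintype.ofFinite (V →ₗ[ZMod p] ZMod p)
  have hset : ∀ (Q : Fin t → Prop) (_ : DecidablePred Q),
      Set.ncard {j | Q j} = (Finset.univ.filter Q).card := by
    intro Q _
    rw [← Set.ncard_coe_finset]
    congr 1
    ext j
    simp
  have h1 : ∀ φ : V →ₗ[ZMod p] ZMod p,
      2 * (Finset.univ.filter fun j => φ (u j) ≠ 0).card <
        (Finset.univ.filter fun j => u j ≠ 0).card := by
    intro φ
    have := hcon φ
    rw [hset _ inferInstance, hset _ inferInstance] at this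
    exact this
  have h2 : ∑ φ : V →ₗ[ZMod p] ZMod p, 2 * (Finset.univ.filter fun j => φ (u j) ≠ 0).card <
      ∑ φ : V →ₗ[ZMod p] ZMod p, (Finset.univ.filter fun j => u j ≠ 0).card :=
    Finset.sum_lt_sum_of_nonempty ⟨0, Finset.mem_univ _⟩ (fun φ _ => h1 φ)
  have h3 : ∀ j, u j ≠ 0 → Fintype.card (V →ₗ[ZMod p] ZMod p) ≤
      2 * (Finset.univ.filter fun φ : V →ₗ[ZMod p] ZMod p => φ (u j) ≠ 0).card := by
    intro j hj
    have hex : ∃ φ0 : V →ₗ[ZMod p] ZMod p, φ0 (u j) ≠ 0 := by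
      by_contra hno
      push Not at hno
      exact hj ((Module.forall_dual_apply_eq_zero_iff (ZMod p) (u j)).mp hno)
    obtain ⟨φ0, hφ0⟩ := hex
    have h4 : (Finset.univ.filter fun φ : V →ₗ[ZMod p] ZMod p => ¬ φ (u j) ≠ 0).card ≤
        (Finset.univ.filter fun φ : V →ₗ[ZMod p] ZMod p => φ (u j) ≠ 0).card := by
      apply Finset.card_le_card_of_injOn (fun φ => φ + φ0)
      · intro φ hφ
        simp only [Finset.coe_filter, Finset.mem_univ, true_and, Set.mem_ofPred_eq, not_not] at hφ ⊢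
        rw [LinearMap.add_apply, hφ, zero_add]
        exact hφ0
      · intro φ _ ψ _ h
        exact add_right_cancel h
    have h5 := Finset.card_filter_add_card_filter_not (s := Finset.univ)
      (fun φ : V →ₗ[ZMod p] ZMod p => φ (u j) ≠ 0)
    rw [Finset.card_univ] at h5
    omega
  have h6 : ∑ φ : V →ₗ[ZMod p] ZMod p, (Finset.univ.filter fun j => φ (u j) ≠ 0).card =
      ∑ j, (Finset.univ.filter fun φ : V →ₗ[ZMod p] ZMod p => φ (u j) ≠ 0).card := by
    simp only [Finset.card_filter]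
    exact Finset.sum_comm
  have h7 : ∑ φ : V →ₗ[ZMod p] ZMod p, (Finset.univ.filter fun j => u j ≠ 0).card ≤
      ∑ φ : V →ₗ[ZMod p] ZMod p, 2 * (Finset.univ.filter fun j => φ (u j) ≠ 0).card := by
    rw [← Finset.mul_sum, h6, Finset.sum_const, Finset.card_univ, smul_eq_mul, mul_comm,
      Finset.mul_sum, Finset.card_eq_sum_ones, Finset.sum_mul, Finset.sum_filter]
    apply Finset.sum_le_sum
    intro j _
    split_ifs with h
    · rw [one_mul]; exact h3 j h
    · exact Nat.zero_le _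
  omega

theorem LOA_half' (p : ℕ) [Fact p.Prime] (V : Type*) [AddCommGroup V] (hV : ∀ x : V, p • x = 0)
    [Finite V] (t : ℕ) (u : Fin t → V) :
    ∃ φ : V →+ ZMod p,
      Set.ncard {j | u j ≠ 0} ≤ 2 * Set.ncard {j | φ (u j) ≠ 0} := by
  let hmod : Module (ZMod p) V := AddCommGroup.zmodModule hV
  obtain ⟨φ, hφ⟩ := LOA_half p V t u
  exact ⟨φ.toAddMonoidHom, hφ⟩

theorem LOA (h1 : FIN_stmt) (h2 : LO1_stmt) : LOA_stmt := by
  intro a t P u ha hSm hu
  obtain ⟨hfin, p, hp, hab, -, -⟩ := h1 P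
  have hpf : Fact p.Prime := ⟨hp⟩
  have hpl : 2 ^ (3 * a) ≤ p := by
    by_contra hlt
    push Not at hlt
    exact hSm ⟨p, hp, hab, hlt⟩
  have hp0 : (p : KP P) = 0 := by
    have h3 : Ideal.Quotient.mk P.asIdeal ((p : ℕ) : ℤ[X]) = 0 := Ideal.Quotient.eq_zero_iff_mem.mpr hab
    rwa [map_natCast] at h3
  obtain ⟨φ, hφ⟩ := LOA_half' p (KP P) (fun x => by rw [nsmul_eq_mul, hp0, zero_mul]) t u
  have h4 := h2 p a t (fun j => φ (u j)) hp ha hpl (by omega)
  refine le_trans (Nat.mul_le_mul_right _ ?_) h4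
  apply Set.ncard_le_ncard _ (Set.toFinite _)
  intro b hb
  simp only [Set.mem_ofPred_eq, dotb] at hb ⊢
  have h5 := congrArg φ hb
  rw [map_sum, map_zero] at h5
  refine Eq.trans ?_ h5
  apply Finset.sum_congr rfl
  intro j _
  split_ifs
  · rfl
  · rw [map_zero]

end Pool.Agent.helper42.NS
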